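import Mathlib
import Pool.Agent.N877.P21G.Defs2

/-!
# P21G: the unweighted signed pair sums of the lattice ramified at `7` vanish (statements)

Proof of `S_X7` from `S_PR`: for a prime `l = 3 mod 4` with `4 l ∣ b² + n` the map `γ α ↦ α γ`
(`(b + v) / 2 = γ α`, `N α = l`) permutes the vectors of norm `n` (the maximal order
`ℤ[i] + ℤ[i] (1 + j) / 2` has class number one) and multiplies the sign function of `A` by the
character of `A` at `l`.
-/

set_option autoImplicit false

namespace Pool.Agent.N575.P21G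

open Finset
open Pool.Agent.N969.P15 (V3 c2)
open Pool.Agent.N969.P17G (sgnE)
open Pool.Agent.N969.RQ (ip7 vec7)
open Pool.Agent.N877.P21G

noncomputable section

/-- the product of the local characters of `ℚ(√-n)` at the primes dividing `A` -/
def ch (n A : ℕ) (l : ℤ) : ℤ := ∏ p ∈ A.primeFactors, if p = 2 then c2 n l else jacobiSym l p

/-- PR: primes with given symbols -/
def S_PR : Prop := ∀ n A : ℕ, Fn n → A ∈ pd n → A ≠ 1 → sgnE 1 A n 0 = 1 → ∀ N : ℕ,
  ∃ l : ℕ, N < l ∧ l.Prime ∧ l % 4 = 3 ∧ (∃ b : ℤ, (4 * l : ℤ) ∣ b ^ 2 + n) ∧ ch n A l = -1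

/-- X7: the unweighted sums vanish -/
def S_X7 : Prop := ∀ n A : ℕ, Fn n → A ∈ pd n → A ≠ 1 → X7 A n = 0

end

end Pool.Agent.N575.P21G
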